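import Pool.Agent.H14.TradeC

set_option autoImplicit false

namespace Pool.Agent.Results.MP_8a557e_co.NoPoly

open Pool.Agent.H14.Trade Filter

theorem result :
    ¬ ∃ p : Polynomial ℝ, ∀ (n : ℕ) (f : (Fin n → Bool) → Bool), Monotone f → ¬ Weighted f →
      ∃ j : ℕ, 1 ≤ j ∧ (j : ℝ) ≤ p.eval (n : ℝ) ∧ SummableAt f j := by
  rintro ⟨p, hp⟩
  have h1 := (p.tendsto_div_exp_atTop.comp (tendsto_natCast_atTop_atTop (R := ℝ))).eventually
    (gt_mem_nhds (show (0 : ℝ) < 1 by norm_num))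
  obtain ⟨N, hN⟩ := eventually_atTop.mp h1
  obtain ⟨m, hm1, hm2⟩ : ∃ m : ℕ, N ≤ m ∧ 3 ^ 240 ≤ m := ⟨max N (3 ^ 240), le_max_left _ _,
    le_max_right _ _⟩
  have hm3 : 2 ≤ m := le_trans (by norm_num) hm2
  obtain ⟨f, f1, f2, f3⟩ := main (120 * m) (by omega)
  obtain ⟨j, j1, j2, j3⟩ := hp _ f f1 f2
  have a := f3 j j1 j3
  rw [Nat.mul_div_cancel_left m (by norm_num : 0 < 120)] at a
  have b := hN (120 * m) (by omega)
  simp only [Function.comp_apply] at b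
  rw [div_lt_one (Real.exp_pos _)] at b
  have c : Real.exp ((120 * m : ℕ) : ℝ) ≤ ((3 ^ (120 * m) : ℕ) : ℝ) := by
    rw [← Real.exp_one_pow]
    push_cast
    exact pow_le_pow_left₀ (Real.exp_pos _).le (by linarith [Real.exp_one_lt_d9]) _
  have d : 3 ^ (120 * m) ≤ m ^ (m - 1) := by
    calc 3 ^ (120 * m) ≤ 3 ^ (240 * (m - 1)) := Nat.pow_le_pow_right (by norm_num) (by omega)
      _ = (3 ^ 240) ^ (m - 1) := by rw [pow_mul]
      _ ≤ m ^ (m - 1) := Nat.pow_le_pow_left hm2 _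
  have e : ((3 ^ (120 * m) : ℕ) : ℝ) ≤ (j : ℝ) := by exact_mod_cast d.trans a
  linarith

end Pool.Agent.Results.MP_8a557e_co.NoPoly
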